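import Pool.Agent.MP_75da70_an.H50.Smallness
import Pool.Agent.MP_75da70_an.H31.Struct
import Pool.Agent.MP_75da70_an.H31.NoConfig
import Pool.Agent.MP_75da70_an.H55.RData2
import Pool.Agent.MP_75da70_an.H55.AData

/-
Without a bounded neighbourhood assignment the global dimension is infinite.
-/

namespace Pool.Agent.MP_75da70_an.H8

open Filter Topology Set H7

variable {Ω : Type} [TopologicalSpace Ω] [CompactSpace Ω] [T2Space Ω]
  [TotallyDisconnectedSpace Ω]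


/-- The recursive choice of points and clopen sets with small values at the last point. -/
theorem notB_build {n L N k₁ : ℕ} {C ε : ℝ} {q : Ω} {Γ D : Set Ω}
    {a : Fin n → (Fin n → Set Ω) → (Fin n → Ω) → ℂ} (ha : AData n q a C) (hF : Fam q Γ D N)
    (hk : ∀ φ : Set Ω → Ω → Ω → ℂ, PhiData q φ C → ∃ S, Small D k₁ S ∧
      ∀ γ ∈ Γ, γ ∉ S → ∀ᶠ W in (Ultrafilter.of (cnb γ) : Filter (Set Ω)), ‖φ W γ γ‖ ≤ ε)
    (hΓ : ¬ Small D (Fintype.card (Fin n × (Fin n → Fin L)) * k₁ + 1) Γ) (s : ℕ) (hs : s ≤ L) :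
    ∃ (W : Fin L → Set Ω) (γ : Fin L → Ω),
      (∀ t : Fin L, t.1 < s → IsClopen (W t) ∧ q ∉ W t ∧ γ t ∈ W t) ∧
      (∀ t t' : Fin L, t.1 < s → t'.1 < s → t ≠ t' → Disjoint (W t) (W t')) ∧
      ∀ (i : Fin n) (σ : Fin n → Fin L), Function.Injective σ → (∀ k, σ k ≤ σ i) →
        (σ i).1 < s → ‖a i (W ∘ σ) (γ ∘ σ)‖ ≤ ε := by
  classical
  induction s with
  | zero => exact ⟨fun _ => ∅, fun _ => q, by simp, by simp, by simp⟩
  | succ s ih =>
    obtain ⟨W, γ, h1, h2, h3⟩ := ih (Nat.le_of_succ_le hs)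
    let s' : Fin L := ⟨s, hs⟩
    have hlt : ∀ {i : Fin n} {σ : Fin n → Fin L}, Function.Injective σ → (∀ k, σ k ≤ σ i) →
        σ i = s' → ∀ k, k ≠ i → (σ k).1 < s := fun {i σ} e1 e2 e3 k hk =>
      show σ k < s' from e3 ▸ lt_of_le_of_ne (e2 k) fun e => hk (e1 e)
    have key : ∀ p : Fin n × (Fin n → Fin L), ∃ S, Small D k₁ S ∧ ∀ g ∈ Γ, g ∉ S →
        ∀ᶠ V in (Ultrafilter.of (cnb g) : Filter (Set Ω)), Function.Injective p.2 →
          (∀ k, p.2 k ≤ p.2 p.1) → p.2 p.1 = s' → IsClopen V → q ∉ V →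
          (∀ t : Fin L, t.1 < s → Disjoint V (W t)) →
          ‖a p.1 (Function.update (W ∘ p.2) p.1 V) (Function.update (γ ∘ p.2) p.1 g)‖ ≤ ε := by
      rintro ⟨i, σ⟩
      by_cases hp : Function.Injective σ ∧ (∀ k, σ k ≤ σ i) ∧ σ i = s'
      · have h4 := hlt hp.1 hp.2.1 hp.2.2
        obtain ⟨φ, f1, f2⟩ := ha.phi i (W ∘ σ) (γ ∘ σ)
          (fun k hk => ⟨(h1 _ (h4 k hk)).1, (h1 _ (h4 k hk)).2.1⟩)
          fun k k' hk hk' hne => h2 _ _ (h4 k hk) (h4 k' hk') fun e => hne (hp.1 e)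
        obtain ⟨S, s1, s2⟩ := hk φ f1
        refine ⟨S, s1, fun g hg hS => (s2 g hg hS).mono fun V hV _ _ _ v1 v2 v3 => ?_⟩
        rw [f2 V v1 v2 fun k hk => v3 _ (h4 k hk)]
        exact hV
      · exact ⟨∅, Small.empty _ _, fun g _ _ => Eventually.of_forall fun V e1 e2 e3 =>
          (hp ⟨e1, e2, e3⟩).elim⟩
    choose S hS hS' using key
    let Z : Set Ω := ⋃ t : {t : Fin L // t.1 < s}, W t.1
    have hZ : IsClopen Z := isClopen_iUnion_of_finite fun t => (h1 t.1 t.2).1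
    have hqZ : q ∉ Z := fun h => by
      obtain ⟨t, ht⟩ := mem_iUnion.1 h
      exact (h1 t.1 t.2).2.1 ht
    obtain ⟨g, hg, hg'⟩ := not_subset.1 fun h => hΓ (((Small.biUnion Finset.univ
      fun p _ => hS p).union (Small.of_finite D (hF.fin Z hZ hqZ))).mono h le_rfl)
    have g1 : ∀ p, g ∉ S p := fun p h =>
      hg' (Or.inl (mem_biUnion (Finset.mem_coe.2 (Finset.mem_univ p)) h))
    have g2 : g ∉ Z := fun h => hg' (Or.inr ⟨hg, h⟩)
    obtain ⟨V, ⟨v1, v2, v3⟩, v4⟩ := (((eventually_cnb (inter_mem (hZ.compl.isOpen.mem_nhds g2)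
      (compl_singleton_mem_nhds (x := q) fun e => hF.notMem (e ▸ hg)))).filter_mono
      (Ultrafilter.of_le _)).and (eventually_all.2 fun p => hS' p g hg (g1 p))).exists
    have v5 : q ∉ V := fun h => (v3 h).2 rfl
    have v6 : ∀ t : Fin L, t.1 < s → Disjoint V (W t) := fun t ht =>
      disjoint_left.2 fun x hx hx' => (v3 hx).1 (mem_iUnion.2 ⟨⟨t, ht⟩, hx'⟩)
    have hc : ∀ t : Fin L, t.1 < s + 1 → t ≠ s' → t.1 < s := fun t ht hne =>
      lt_of_le_of_ne (Nat.le_of_lt_succ ht) fun e => hne (Fin.ext e)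
    refine ⟨Function.update W s' V, Function.update γ s' g, fun t ht => ?_,
      fun t t' ht ht' hne => ?_, fun i σ e1 e2 e3 => ?_⟩
    · rcases eq_or_ne t s' with rfl | h
      · simpa only [Function.update_self] using ⟨v1, v5, v2⟩
      · simpa only [Function.update_of_ne h] using h1 t (hc t ht h)
    · rcases eq_or_ne t s' with rfl | h
      · rw [Function.update_self, Function.update_of_ne hne.symm]
        exact v6 _ (hc _ ht' hne.symm)
      · rcases eq_or_ne t' s' with rfl | h'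
        · rw [Function.update_self, Function.update_of_ne h]
          exact (v6 _ (hc _ ht h)).symm
        · rw [Function.update_of_ne h, Function.update_of_ne h']
          exact h2 _ _ (hc _ ht h) (hc _ ht' h') hne
    · rcases eq_or_ne (σ i) s' with h | h
      · rw [← h, Function.update_comp_eq_of_injective _ e1,
          Function.update_comp_eq_of_injective _ e1]
        exact v4 (i, σ) e1 e2 h v1 v5 v6
      · have h4 := hc _ e3 h
        have h5 : ∀ k, σ k ≠ s' := fun k e =>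
          (lt_of_le_of_lt (show (σ k).1 ≤ (σ i).1 from e2 k) h4).ne (congrArg Fin.val e)
        rw [Function.update_comp_eq_of_forall_ne _ _ h5, Function.update_comp_eq_of_forall_ne _ _ h5]
        exact h3 i σ e1 e2 h4

theorem dg_eq_top_of_not_hasB {H : ℕ} (hH : Dm Ω H = ∅) {U : Ω → Set Ω} {rk : Ω → ℕ}
    (h : RS U rk H) (hB : ¬ HasB U) : dg C(Ω, ℂ) = ⊤ := by
  refine top_unique (le_trans ?_ (le_iSup dh (QM Ω 0)))
  refine le_iInf fun m => le_iInf fun hm => False.elim ?_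
  obtain ⟨R, C₀, hR⟩ := exists_RData' (hm.mono (k' := m + 1 + 1) (by omega))
  obtain ⟨C, hC⟩ := hR.aData hH (Nat.le_add_left 1 m)
  have hε : (0 : ℝ) < 1 / (2 * (m + 1)) := by positivity
  obtain ⟨L, hL⟩ := no_config (m + 1) C (ε := 1 / (2 * (m + 1))) (by
    push_cast
    rw [mul_one_div, div_lt_one (by positivity)]
    linarith [show (0 : ℝ) ≤ m from m.cast_nonneg])
  obtain ⟨N, hN⟩ := h.exists_fam hB
  obtain ⟨k₁, hk⟩ := smallness (Ω := Ω) N C hε
  obtain ⟨q, Γ, D, hF, hΓ⟩ := hN (Fintype.card (Fin (m + 1) × (Fin (m + 1) → Fin L)) * k₁ + 1)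
  obtain ⟨a, ha⟩ := hC q
  obtain ⟨W, γ, h1, h2, h3⟩ := notB_build ha hF (fun φ hφ => hk q Γ D φ
    (fun γ => Ultrafilter.of (cnb γ)) (fun _ => Ultrafilter.of_le _) hF hφ) hΓ L le_rfl
  obtain ⟨b, b1, b2⟩ := ha.g2 L W γ (fun s => ⟨(h1 s s.2).1, (h1 s s.2).2.1⟩)
    fun s s' hne => h2 s s' s.2 s'.2 hne
  refine hL b b2 (fun s hs => ?_) fun i s hs hi => ?_
  · rw [Finset.sum_congr rfl fun i _ => b1 i s hs]
    exact ha.sum _ _ (fun k => h1 _ (s k).2) fun k k' hne =>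
      h2 _ _ (s k).2 (s k').2 fun e => hne (hs e)
  · rw [b1 i s hs]
    exact h3 i s hs hi (s i).2

end Pool.Agent.MP_75da70_an.H8
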