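import Pool.Agent.MP_75da70_an.H8.IDefs

/-
Closure properties of small sets, isolating neighbourhoods, and iterated limits of kernels.
-/

namespace Pool.Agent.MP_75da70_an.H8

open Filter Topology Set H7
open scoped InnerProductSpace

variable {Ω : Type} [TopologicalSpace Ω]

theorem Small.mono {D S S' : Set Ω} {k k' : ℕ} (h : Small D k S) (hS : S' ⊆ S) (hk : k ≤ k') :
    Small D k' S' := by
  obtain ⟨W, h1, h2⟩ := h
  exact ⟨W, fun γ hγ => h1 γ (hS hγ), fun v hv T hT =>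
    (h2 v hv T fun γ hγ => ⟨hS (hT γ hγ).1, (hT γ hγ).2⟩).trans hk⟩

theorem Small.empty (D : Set Ω) (k : ℕ) : Small D k ∅ :=
  ⟨fun _ => univ, fun _ h => h.elim, fun _ _ T hT => by
    rw [Finset.eq_empty_of_forall_notMem fun γ hγ => (hT γ hγ).1]; exact Nat.zero_le _⟩

theorem Small.union {D S S' : Set Ω} {k k' : ℕ} (h : Small D k S) (h' : Small D k' S') :
    Small D (k + k') (S ∪ S') := by
  classical
  obtain ⟨W, h1, h2⟩ := h
  obtain ⟨W', h1', h2'⟩ := h'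
  refine ⟨fun γ => if γ ∈ S then W γ else W' γ, fun γ hγ => ?_, fun v hv T hT => ?_⟩
  · beta_reduce
    split_ifs with hS
    exacts [h1 γ hS, h1' γ (hγ.resolve_left hS)]
  · rw [← Finset.card_filter_add_card_filter_not (s := T) (· ∈ S)]
    refine add_le_add (h2 v hv _ fun γ hγ => ?_) (h2' v hv _ fun γ hγ => ?_)
    · obtain ⟨a, b⟩ := Finset.mem_filter.1 hγ
      exact ⟨b, by simpa only [if_pos b] using (hT γ a).2⟩
    · obtain ⟨a, b⟩ := Finset.mem_filter.1 hγ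
      exact ⟨(hT γ a).1.resolve_left b, by simpa only [if_neg b] using (hT γ a).2⟩

theorem Small.biUnion {ι : Type} {D : Set Ω} {S : ι → Set Ω} {k : ℕ} (s : Finset ι)
    (h : ∀ i ∈ s, Small D k (S i)) : Small D (s.card * k) (⋃ i ∈ s, S i) := by
  classical
  induction s using Finset.induction_on with
  | empty => simpa using Small.empty D 0
  | insert a s ha ih =>
    rw [Finset.set_biUnion_insert, Finset.card_insert_of_notMem ha, add_mul, one_mul, add_comm]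
    exact (h a (Finset.mem_insert_self _ _)).union
      (ih fun i hi => h i (Finset.mem_insert_of_mem hi))

theorem Small.of_finite [T2Space Ω] (D : Set Ω) {S : Set Ω} (hS : S.Finite) : Small D 1 S := by
  obtain ⟨U, h1, h2⟩ := hS.t2_separation
  refine ⟨U, fun γ _ => (h1 γ).2.mem_nhds (h1 γ).1, fun v _ T hT =>
    Finset.card_le_one.2 fun a ha b hb => ?_⟩
  by_contra hne
  exact disjoint_left.1 (h2 (hT a ha).1 (hT b hb).1 hne) (hT a ha).2 (hT b hb).2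

theorem eventually_cnb {γ : Ω} {B : Set Ω} (hB : B ∈ 𝓝 γ) :
    ∀ᶠ V in cnb γ, IsClopen V ∧ γ ∈ V ∧ V ⊆ B :=
  eventually_inf_principal.2 ((eventually_smallSets_subset.2 hB).mono fun _ h h' =>
    ⟨h'.1, h'.2, h⟩)

theorem small_exists_ge {ι : Type} (𝒲 : Ultrafilter ι) {f : ι → ℂ} (h : ¬ Tendsto f 𝒲 (𝓝 0)) :
    ∃ m : ℕ, ∀ᶠ v in (𝒲 : Filter ι), 1 / ((m : ℝ) + 1) ≤ ‖f v‖ := by
  by_contra hc
  refine h (Metric.tendsto_nhds.2 fun δ hδ => ?_)
  obtain ⟨m, hm⟩ := exists_nat_one_div_lt hδ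
  filter_upwards [Ultrafilter.eventually_not.2 fun h' => hc ⟨m, h'⟩] with v hv
  rw [dist_zero_right]
  exact (not_le.1 hv).trans hm

/-- If all rows of a kernel tend to zero, so does a limit of rows. -/
theorem small_comm {I J : Type} {M : I → J → ℂ} {C : ℝ} (h : G2 M C) (𝒰 : Ultrafilter I)
    (𝒲 : Ultrafilter J) {β : J → ℂ} (hβ : ∀ v, Tendsto (fun u => M u v) 𝒰 (𝓝 (β v)))
    (h0 : ∀ u, Tendsto (M u) 𝒲 (𝓝 0)) : Tendsto β 𝒲 (𝓝 0) := by
  obtain ⟨H, _, _, _, ξ, η, hξ, hη, h⟩ := h.hilbert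
  obtain ⟨x, hx⟩ := exists_weak_ulim 𝒰 ξ (B := √C) fun k => Real.le_sqrt_of_sq_le (hξ k)
  obtain ⟨y, hy⟩ := exists_weak_ulim 𝒲 η (B := √C) fun k => Real.le_sqrt_of_sq_le (hη k)
  have hy' : ∀ v, Tendsto (fun k => ⟪v, η k⟫_ℂ) 𝒲 (𝓝 ⟪v, y⟫_ℂ) := fun v => by
    have := (Complex.continuous_conj.tendsto _).comp (hy v)
    simpa [Function.comp_def] using this
  have a1 : ∀ u, ⟪ξ u, y⟫_ℂ = 0 := fun u =>
    tendsto_nhds_unique (hy' (ξ u)) (by simpa only [h] using h0 u)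
  have a2 : ⟪x, y⟫_ℂ = 0 := tendsto_nhds_unique (hx y) (by simpa only [a1] using tendsto_const_nhds)
  have a3 : β = fun v => ⟪x, η v⟫_ℂ := funext fun v =>
    tendsto_nhds_unique (hβ v) (by simpa only [h] using hx (η v))
  rw [a3, ← a2]
  exact hy' x

variable [CompactSpace Ω] [T2Space Ω] [TotallyDisconnectedSpace Ω]

theorem small_clopen {γ : Ω} {B : Set Ω} (hB : B ∈ 𝓝 γ) : ∃ V, IsClopen V ∧ γ ∈ V ∧ V ⊆ B := by
  obtain ⟨V, h1, h2⟩ := (nhds_basis_clopen γ).mem_iff.1 hB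
  exact ⟨V, h1.2, h1.1, h2⟩

/-- A point of a family has a clopen neighbourhood that contains no other point. -/
theorem Fam.exists_iso {q : Ω} {Γ D : Set Ω} {N : ℕ} (h : Fam q Γ D N) {γ : Ω} (hγ : γ ∈ Γ) :
    ∃ B, IsClopen B ∧ γ ∈ B ∧ q ∉ B ∧ ∀ γ' ∈ Γ, γ' ∈ B → γ' = γ := by
  obtain ⟨O, h1, h2, h3⟩ := small_clopen (γ := γ) (B := {q}ᶜ)
    (compl_singleton_mem_nhds fun e => h.notMem (e ▸ hγ))
  have h4 : q ∉ O := fun hq => h3 hq rfl
  obtain ⟨B, b1, b2, b3⟩ := small_clopen (γ := γ) (B := O ∩ ((Γ ∩ O) \ {γ})ᶜ)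
    (inter_mem (h1.isOpen.mem_nhds h2)
      ((h.fin O h1 h4).sdiff.isClosed.isOpen_compl.mem_nhds fun hx => hx.2 rfl))
  refine ⟨B, b1, b2, fun hq => h4 (b3 hq).1, fun γ' h5 h6 => ?_⟩
  by_contra hne
  exact (b3 h6).2 ⟨⟨h5, (b3 h6).1⟩, hne⟩

end Pool.Agent.MP_75da70_an.H8
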