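import Pool.Agent.MP_75da70_an.H50.SmallBase
import Pool.Agent.MP_75da70_an.H19.HStar
import Pool.Agent.MP_75da70_an.H61.Atom

/-
The points of a family that carry a large atom form a small set.
-/

namespace Pool.Agent.MP_75da70_an.H8

open Filter Topology Set H7

variable {Ω : Type} [TopologicalSpace Ω] [CompactSpace Ω] [T2Space Ω]
  [TotallyDisconnectedSpace Ω]

theorem small_of_kernel {q : Ω} {Γ D S : Set Ω} {N : ℕ} (h : Fam q Γ D N) (hS : S ⊆ Γ)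
    (M : S → Ω → ℂ) {C ε : ℝ} (hε : 0 < ε) (hM : G2 M C)
    (hbig : ∀ γ : S, ∀ᶠ v in 𝓝 γ.1 ⊓ 𝓟 D, ε ≤ ‖M γ v‖)
    (hcount : ∀ U : Ultrafilter Ω, ↑U ≤ 𝓝 q → {γ | ¬ Tendsto (M γ) U (𝓝 0)}.Countable) :
    Small D ⌈((N : ℝ) + 1) * (1 + 4 * C ^ 2 / ε ^ 2)⌉₊ S := by
  classical
  obtain ⟨A, hA, hA'⟩ := h.nb
  obtain ⟨W, h1, h2⟩ := hstar (fun γ : S => 𝓝 γ.1 ⊓ 𝓟 D) (𝓝 q ⊓ 𝓟 D) (fun γ => A γ.1 ∩ D) N M
    hε hM (fun γ => inter_mem_inf (hA _ (hS γ.2)) (mem_principal_self _))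
    (fun T hT => by
      obtain ⟨γ₀, h0⟩ := Finset.card_pos.1 (hT ▸ N.succ_pos : 0 < T.card)
      refine (hA' (T.map (Function.Embedding.subtype _)) (fun γ hγ => ?_)
        (by rw [Finset.card_map, hT])).subset fun v hv => ⟨(hv γ₀ h0).2, fun γ hγ => ?_⟩
      · obtain ⟨x, -, rfl⟩ := Finset.mem_map.1 hγ
        exact hS x.2
      · obtain ⟨x, hx, rfl⟩ := Finset.mem_map.1 hγ
        exact (hv x hx).1)
    (fun O hO => by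
      obtain ⟨V, v1, v2, v3⟩ := small_clopen (mem_inf_principal.1 hO)
      refine ((h.fin Vᶜ v1.compl fun hq => hq v2).preimage Subtype.val_injective.injOn).subset
        fun γ hγ => ⟨hS γ.2, fun hV => hγ ?_⟩
      exact mem_inf_principal.2 (mem_of_superset (v1.isOpen.mem_nhds hV) v3))
    (fun γ => by
      obtain ⟨B, b1, b2, -, b3⟩ := h.exists_iso (hS γ.2)
      exact ⟨B, mem_inf_of_left (b1.isOpen.mem_nhds b2), fun γ' hne => mem_inf_of_left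
        (b1.compl.isOpen.mem_nhds fun hB => hne (Subtype.ext (b3 _ (hS γ'.2) hB)))⟩)
    (fun γ ε' hε' => (hbig γ).mono fun _ hv => hε'.le.trans hv)
    fun U hU => hcount U (hU.trans inf_le_left)
  refine ⟨fun γ => if hγ : γ ∈ S then {x | x ∈ D → x ∈ W ⟨γ, hγ⟩} else univ, fun γ hγ => ?_,
    fun v hv T hT => ?_⟩
  · beta_reduce
    rw [dif_pos hγ]
    exact mem_inf_principal.1 (h1 ⟨γ, hγ⟩)
  · have h3 := h2 v (T.subtype (· ∈ S)) fun γ hγ => by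
      have := (hT γ.1 (Finset.mem_subtype.1 hγ)).2
      beta_reduce at this
      rw [dif_pos γ.2] at this
      exact this hv
    rw [Finset.card_subtype, Finset.filter_true_of_mem fun γ hγ => (hT γ hγ).1] at h3
    exact_mod_cast h3.trans (Nat.le_ceil _)

theorem small_count {q : Ω} {φ : Set Ω → Ω → Ω → ℂ} {C : ℝ} (h : PhiData q φ C)
    {𝒜 : Ω → Ultrafilter (Set Ω)} (h𝒜 : ∀ γ, ↑(𝒜 γ) ≤ cnb γ) {Γ : Set Ω} (hq : q ∉ Γ)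
    (hΓ : ∀ O, IsClopen O → q ∉ O → (Γ ∩ O).Finite)
    {N : Ω → Ω → Ω → ℂ} (hN : IsAtom φ 𝒜 Γ N) (𝒲 : Ultrafilter Ω) (h𝒲 : ↑𝒲 ≤ 𝓝 q)
    (uu : Ω → Ω) : {γ | γ ∈ Γ ∧ ¬ Tendsto (N γ (uu γ)) 𝒲 (𝓝 0)}.Countable := by
  refine (countable_iUnion fun m : ℕ => (h.atom_infty h𝒜 hq hΓ hN 𝒲 h𝒲 uu
    (δ := 1 / ((m : ℝ) + 1)) Nat.one_div_pos_of_nat).countable).mono fun γ hγ => ?_
  obtain ⟨m, hm⟩ := small_exists_ge 𝒲 hγ.2
  exact mem_iUnion.2 ⟨m, hγ.1, hm⟩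

theorem smallness (N : ℕ) (C : ℝ) {ε : ℝ} (hε : 0 < ε) : ∃ k : ℕ, ∀ (q : Ω) (Γ D : Set Ω)
    (φ : Set Ω → Ω → Ω → ℂ) (𝒜 : Ω → Ultrafilter (Set Ω)), (∀ γ, ↑(𝒜 γ) ≤ cnb γ) →
    Fam q Γ D N → PhiData q φ C → ∃ S, Small D k S ∧
      ∀ γ ∈ Γ, γ ∉ S → ∀ᶠ W in (𝒜 γ : Filter (Set Ω)), ‖φ W γ γ‖ ≤ ε := by
  classical
  refine ⟨⌈((N : ℝ) + 1) * (1 + 4 * C ^ 2 / (ε / 6) ^ 2)⌉₊ +
    ⌈((N : ℝ) + 1) * (1 + 4 * (C + C) ^ 2 / (ε / 6) ^ 2)⌉₊, fun q Γ D φ 𝒜 h𝒜 hF h => ?_⟩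
  have hq := hF.notMem
  have hε6 : 0 < ε / 6 := by positivity
  obtain ⟨A, hA⟩ := h.exists_atom 𝒜 h𝒜 hq
  have hA' : IsAtom (fun O u v => φ O v u) 𝒜 Γ fun γ u v => A γ v u := fun γ hγ u v => hA γ hγ v u
  obtain ⟨g1, g2⟩ := h.atom_g2 h𝒜 hq hA
  let S₁ : Set Ω := {γ | γ ∈ Γ ∧ ∀ᶠ u in 𝓝 γ ⊓ 𝓟 D, ε / 6 ≤ ‖A γ u γ‖}
  let S₂ : Set Ω := {γ | γ ∈ Γ ∧ ε / 2 < ‖A γ γ γ‖ ∧ γ ∉ S₁}
  have e1 : ∀ γ, ∃ 𝒰 : Ultrafilter Ω, γ ∈ S₂ →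
      ↑𝒰 ≤ 𝓝 γ ∧ ∀ᶠ u in (𝒰 : Filter Ω), ‖A γ u γ‖ < ε / 6 := fun γ => by
    by_cases hγ : γ ∈ S₂
    · have h1 : ∃ᶠ u in 𝓝 γ ⊓ 𝓟 D, ‖A γ u γ‖ < ε / 6 := fun h' =>
        hγ.2.2 ⟨hγ.1, h'.mono fun _ => not_lt.1⟩
      have := frequently_iff_neBot.1 h1
      obtain ⟨𝒰, h𝒰⟩ := Ultrafilter.exists_le (𝓝 γ ⊓ 𝓟 D ⊓ 𝓟 {u | ‖A γ u γ‖ < ε / 6})
      exact ⟨𝒰, fun _ => ⟨h𝒰.trans (inf_le_left.trans inf_le_left),
        le_principal_iff.1 (h𝒰.trans inf_le_right)⟩⟩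
    · exact ⟨pure q, fun h' => (hγ h').elim⟩
  choose 𝒰 h𝒰 using e1
  have e2 : ∀ γ v, ∃ c, γ ∈ Γ → Tendsto (fun u => A γ u v) (𝒰 γ) (𝓝 c) := fun γ v => by
    by_cases hγ : γ ∈ Γ
    · obtain ⟨c, hc⟩ := exists_ulim (𝒰 γ) (fun u => A γ u v)
        (Eventually.of_forall fun u => (g1 γ hγ).norm_le u v)
      exact ⟨c, fun _ => hc⟩
    · exact ⟨0, fun h' => (hγ h').elim⟩
  choose β hβ using e2
  have g3 : G2 (fun (γ : Γ) v => β γ v) C :=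
    G2.of_tendsto (Filter.pi fun γ => (𝒰 γ : Filter Ω)) (Eventually.of_forall g2)
      tendsto_const_nhds fun γ v => (hβ γ v γ.2).comp (tendsto_eval_pi _ γ.1)
  refine ⟨S₁ ∪ S₂, Small.union ?_ ?_, fun γ hγ hS => ?_⟩
  · refine small_of_kernel hF (fun γ hγ => hγ.1) (fun γ v => A γ v γ) hε6
      (((h.swap.atom_g2 h𝒜 hq hA').2 id).comp (fun γ : S₁ => ⟨γ.1, γ.2.1⟩) id)
      (fun γ => γ.2.2) fun U hU => ?_
    refine ((small_count h.swap h𝒜 hq hF.fin hA' U hU id).preimage_of_injOn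
      Subtype.val_injective.injOn).mono fun γ hγ => ?_
    exact ⟨γ.2.1, hγ⟩
  · refine small_of_kernel hF (fun γ hγ => hγ.1) (fun γ v => A γ γ v - β γ v) hε6
      (((g2 id).sub g3).comp (fun γ : S₂ => ⟨γ.1, γ.2.1⟩) id) (fun γ => ?_) fun U hU => ?_
    · have h1 : Tendsto (fun v => A γ γ v - β γ v) (𝓝 γ.1) (𝓝 (A γ γ γ - β γ γ)) :=
        (tendsto_iff_ultrafilter _ _ _).2 fun 𝒱 h𝒱 => h.atom_identity h𝒜 hq hA γ.2.1 (𝒰 γ) 𝒱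
          (h𝒰 _ γ.2).1 h𝒱 _ _ (fun v => hβ γ v γ.2.1) (hβ γ γ γ.2.1)
      have h2 : ‖β γ γ‖ ≤ ε / 6 :=
        le_of_tendsto (hβ γ γ γ.2.1).norm ((h𝒰 _ γ.2).2.mono fun _ => le_of_lt)
      have h3 := norm_sub_norm_le (A γ γ γ) (β γ γ)
      have h4 := γ.2.2.1
      exact (h1.norm.eventually_const_le (by linarith)).filter_mono inf_le_left
    · have e3 : ∀ γ, ∃ u, γ ∈ Γ → Tendsto (A γ u) U (𝓝 0) → Tendsto (β γ) U (𝓝 0) := fun γ => by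
        by_contra hc
        push Not at hc
        exact (hc q).2.2 (small_comm (g1 γ (hc q).1) (𝒰 γ) U (fun v => hβ γ v (hc q).1)
          fun u => (hc u).2.1)
      choose uu huu using e3
      refine (((small_count h h𝒜 hq hF.fin hA U hU id).union
        (small_count h h𝒜 hq hF.fin hA U hU uu)).preimage_of_injOn
        Subtype.val_injective.injOn).mono fun γ hγ => ?_
      by_contra hc
      simp only [mem_preimage, mem_union, mem_ofPred_eq, γ.2.1, true_and, not_or, not_not] at hc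
      exact hγ (by simpa using hc.1.sub (huu γ γ.2.1 hc.2))
  · have h1 : ‖A γ γ γ‖ ≤ ε / 2 :=
      not_lt.1 fun h' => hS (Or.inr ⟨hγ, h', fun h'' => hS (Or.inl h'')⟩)
    exact (hA γ hγ γ γ).norm.eventually_le_const (by linarith)

end Pool.Agent.MP_75da70_an.H8
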